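import Mathlib
import Pool.Agent.U818.RZ.Near2

/-!
# Coarse density of hyperbolicity near all rational maps with a point of large local degree

Let `R` be a rational map of degree `N` with a zero or a pole at infinity of order at least `κ N`.
Then there are affine maps `A (w) = l w + τ` at distance at most `K √k log N / N` from the identity,
`k ≤ 2 N` being the number of the critical values of `R`, such that the rational map with zeros and
poles moved by `A` is hyperbolic.
-/

set_option autoImplicit false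

open Polynomial Filter Topology MeasureTheory

namespace Pool.Agent.Results.MP_8f2e1c_an.LargeLocalDegree

/-- `P / Q` is in lowest terms and every critical point (point of the Riemann sphere where the map
is not locally injective) has an orbit converging to an attracting periodic cycle. This is word
for word the condition of the frozen statement `S05373`. -/
def Hyperbolic (P Q : Polynomial ℂ) : Prop :=
  IsCoprime P Q ∧ ∃ f : OnePoint ℂ → OnePoint ℂ, Continuous f ∧
    (∀ z : ℂ, Q.eval z ≠ 0 →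
      f (OnePoint.some z) = OnePoint.some (P.eval z / Q.eval z)) ∧
    ∀ c : OnePoint ℂ, (¬ ∃ U ∈ nhds c, Set.InjOn f U) →
      ∃ z : OnePoint ℂ, ∃ n : ℕ, 0 < n ∧ f^[n] z = z ∧
        (∃ U ∈ nhds z, ∀ w ∈ U,
          Filter.Tendsto (fun k : ℕ => f^[n * k] w) Filter.atTop (nhds z)) ∧
        Filter.Tendsto (fun k : ℕ => f^[n * k] c) Filter.atTop (nhds z)

/-- The monic polynomial with roots `z i`. -/
noncomputable def withRoots {n : ℕ} (z : Fin n → ℂ) : ℂ[X] := ∏ i, (X - C (z i))

/-- The numerator of the rational map `a ∏ (w - z i) / ∏ (w - p j)` (its denominator is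
`withRoots p`). -/
noncomputable def num {m : ℕ} (a : ℂ) (z : Fin m → ℂ) : ℂ[X] := C a * withRoots z

/-- The hypotheses on `R = a ∏ (w - z i) / ∏ (w - p j)`, of degree `N = max m n`: the `m` zeros and `n`
poles (repeated with their multiplicities) are in the disc `|w| ≤ M`, the order `|m - n|` of the zero or
pole at infinity is at least `κ N`, and `exp (-B N) ≤ |a| ≤ exp (B N)`. -/
structure InClass (M κ B : ℝ) {m n : ℕ} (z : Fin m → ℂ) (p : Fin n → ℂ) (a : ℂ) : Prop where
  leading_ne : a ≠ 0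
  coprime : ∀ i j, z i ≠ p j
  zeros : ∀ i, ‖z i‖ ≤ M
  poles : ∀ j, ‖p j‖ ≤ M
  infinity : κ * (max m n : ℕ) ≤ |(m : ℝ) - n|
  leading : |Real.log ‖a‖| ≤ B * (max m n : ℕ)

/-- The critical values of `P / Q` (values at the finite critical points) other than `0` and `∞`. -/
def values (P Q : ℂ[X]) : Set ℂ :=
  {v : ℂ | ∃ c : ℂ, P.eval c ≠ 0 ∧ Q.eval c ≠ 0 ∧
    (derivative P * Q - P * derivative Q).eval c = 0 ∧ v = P.eval c / Q.eval c}

/-- Logarithmic area: the measure `dA(w) / |w| ^ 2` on the plane. -/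
noncomputable def logArea : Measure ℂ :=
  (volume : Measure ℂ).withDensity (fun w => ENNReal.ofReal ((‖w‖ ^ 2)⁻¹))

theorem card_le {M κ B : ℝ} {m n : ℕ} {z : Fin m → ℂ} {p : Fin n → ℂ} {a : ℂ}
    (h : Pool.Agent.U818.RZ.Cfg M κ B (max m n) (num a z) (withRoots p)) (ha : a ≠ 0)
    (hN : 0 < max m n) :
    (Pool.Agent.U818.RZ.Sp (num a z) (withRoots p)).card ≤ (Set.range z ∪ Set.range p).ncard := by
  rw [← Set.ncard_coe_finset]
  apply Set.ncard_le_ncard _ ((Set.finite_range z).union (Set.finite_range p))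
  intro c hc
  rw [Finset.mem_coe, Pool.Agent.U818.RZ.mem_Sp (h.neP hN) (h.neQ hN)] at hc
  rcases hc with hc | hc
  · unfold num at hc
    rw [eval_mul, eval_C] at hc
    obtain ⟨i, rfl⟩ := Pool.Agent.U818.RZ.W_eval_zero ((mul_eq_zero.1 hc).resolve_left ha)
    exact Or.inl ⟨i, rfl⟩
  · obtain ⟨i, rfl⟩ := Pool.Agent.U818.RZ.W_eval_zero hc
    exact Or.inr ⟨i, rfl⟩

/-- Let `M ≥ 1`, `κ > 0` and `B` be given. There are `K > 0` and `n₀` such that for every rational map
`R = a ∏ (w - z i) / ∏ (w - p j)` of degree `N = max m n ≥ n₀` as in `InClass`: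

(1) `R` has at most `2 N` critical values other than `0` and `∞`. Let `k ≥ 1` be at least their
number. For every `ε` with `K √k log N / N ≤ ε ≤ 1` there are complex numbers `l`, `τ` with
`|l - 1| ≤ ε` and `|τ| ≤ ε` such that the rational map with the zeros `l z i + τ`, the poles
`l p j + τ` and the same leading coefficient `a` is hyperbolic.

(2) If no zero and no pole of `R` is in the disc `|w| < N ^ (-5)`, then the logarithmic area of the
set of all `b` in the annulus `exp (-N) ≤ |b| ≤ exp N` for which `b R` is not hyperbolic is at most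
`K √k log N` (the area of the annulus is `4 π N`).

(3) If `R` has at most `s ≥ 1` different zeros and poles in the plane, and `r = K s (log N / N) ^ (1 / s)`
is at most one, then `R + t` is hyperbolic for some `t` with `|t| ≤ r`.

(4) For every `s ≥ 1` there are `K` and `n₀` such that for every `R` of degree `N ≥ n₀` as in `InClass`
with at most `s` different zeros and poles in the plane the area of the set of the `t` in the disc
`|t| ≤ M` for which `R + t` is not hyperbolic is at most `K (log N / N) ^ (2 / s)` if `s ≥ 3`, and at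
most `K (log N) ^ 2 / N` if `s ≤ 2`. -/
theorem result (M κ B : ℝ) (hM : 1 ≤ M) (hκ : 0 < κ) :
    (∃ K : ℝ, ∃ n₀ : ℕ, 0 < K ∧ ∀ (m n N : ℕ) (z : Fin m → ℂ) (p : Fin n → ℂ) (a : ℂ),
      N = max m n → n₀ ≤ N → InClass M κ B z p a →
      (values (num a z) (withRoots p)).ncard ≤ 2 * N ∧
      (∀ k : ℕ, 1 ≤ k → (values (num a z) (withRoots p)).ncard ≤ k →
        (∀ ε : ℝ, K * (Real.sqrt k * Real.log N / N) ≤ ε → ε ≤ 1 →
          ∃ l τ : ℂ, ‖l - 1‖ ≤ ε ∧ ‖τ‖ ≤ ε ∧
            Hyperbolic (num a fun i => l * z i + τ) (withRoots fun j => l * p j + τ)) ∧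
        ((∀ i, 1 / (N : ℝ) ^ 5 ≤ ‖z i‖) → (∀ j, 1 / (N : ℝ) ^ 5 ≤ ‖p j‖) →
          logArea {b : ℂ | b ≠ 0 ∧ |Real.log ‖b‖| ≤ N ∧
            ¬ Hyperbolic (C b * num a z) (withRoots p)} ≤
            ENNReal.ofReal (K * (Real.sqrt k * Real.log N)))) ∧
      ∀ s : ℕ, 1 ≤ s → (Set.range z ∪ Set.range p).ncard ≤ s →
        K * s * (Real.log N / N) ^ ((1 : ℝ) / s) ≤ 1 →
        ∃ t : ℂ, ‖t‖ ≤ K * s * (Real.log N / N) ^ ((1 : ℝ) / s) ∧
          Hyperbolic (num a z + C t * withRoots p) (withRoots p)) ∧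
    ∀ s : ℕ, 1 ≤ s → ∃ K : ℝ, ∃ n₀ : ℕ, 0 < K ∧
      ∀ (m n N : ℕ) (z : Fin m → ℂ) (p : Fin n → ℂ) (a : ℂ),
      N = max m n → n₀ ≤ N → InClass M κ B z p a → (Set.range z ∪ Set.range p).ncard ≤ s →
        (3 ≤ s → volume {t : ℂ | ‖t‖ ≤ M ∧
            ¬ Hyperbolic (num a z + C t * withRoots p) (withRoots p)} ≤
          ENNReal.ofReal (K * (Real.log N / N) ^ ((2 : ℝ) / s))) ∧
        (s ≤ 2 → volume {t : ℂ | ‖t‖ ≤ M ∧
            ¬ Hyperbolic (num a z + C t * withRoots p) (withRoots p)} ≤
          ENNReal.ofReal (K * (Real.log N ^ 2 / N))) := by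
  constructor
  · obtain ⟨K₁, n₁, hK₁, h₁⟩ := Pool.Agent.U818.RZ.near_hyp (B := B) hM hκ
    obtain ⟨n₂, h₂⟩ := Pool.Agent.U818.RZ.mult_area' (B := B) hM hκ
    obtain ⟨K₃, n₃, hK₃, h₃⟩ := Pool.Agent.U818.RZ.distance (B := B) hM hκ
    refine ⟨K₁ + K₃ + 2 * Real.pi * 73, max 1 (max n₁ (max n₂ n₃)), by positivity, ?_⟩
    intro m n N z p a hN hn₀ h
    have hN1 : 1 ≤ N := (le_max_left _ _).trans hn₀
    have hNn₁ : n₁ ≤ N := ((le_max_left _ _).trans (le_max_right _ _)).trans hn₀
    have hNn₂ : n₂ ≤ N :=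
      ((le_max_left _ _).trans ((le_max_right _ _).trans (le_max_right _ _))).trans hn₀
    have hNn₃ : n₃ ≤ N :=
      ((le_max_right _ _).trans ((le_max_right _ _).trans (le_max_right _ _))).trans hn₀
    have hpi := Real.pi_pos
    have hlog : 0 ≤ Real.log N := Real.log_natCast_nonneg _
    have hC : Pool.Agent.U818.RZ.Cfg M κ B N (num a z) (withRoots p) := by
      rw [hN]
      exact Pool.Agent.U818.RZ.W_cfg h.leading_ne h.coprime h.zeros h.poles h.infinity h.leading
    refine ⟨(Pool.Agent.U818.RZ.freeVals_finite hC hN1 hκ).2, fun k hk1 hk => ⟨?_, ?_⟩, ?_⟩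
    · intro ε hε hε1
      subst hN
      refine h₁ m n hNn₁ h.infinity z p a h.leading_ne h.coprime h.zeros h.poles h.leading k hk1
        hk ε (le_trans ?_ hε) hε1
      apply mul_le_mul_of_nonneg_right _ (by positivity)
      have : 0 < 2 * Real.pi * 73 := by positivity
      linarith
    · intro hz hp
      refine (h₂ N hNn₂ _ _ hC ?_ k hk1 hk).trans (ENNReal.ofReal_le_ofReal ?_)
      · rintro c (hc | hc)
        · unfold num at hc
          rw [eval_mul, eval_C] at hc
          obtain ⟨i, rfl⟩ :=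
            Pool.Agent.U818.RZ.W_eval_zero ((mul_eq_zero.1 hc).resolve_left h.leading_ne)
          exact hz i
        · obtain ⟨j, rfl⟩ := Pool.Agent.U818.RZ.W_eval_zero hc
          exact hp j
      · have h5 : 0 ≤ Real.sqrt k * Real.log N := by positivity
        calc 2 * Real.pi * (73 * (Real.sqrt k * Real.log N)) =
              2 * Real.pi * 73 * (Real.sqrt k * Real.log N) := by ring
          _ ≤ _ := mul_le_mul_of_nonneg_right (by linarith) h5
    · intro s hs1 hs hr
      have hKl : K₃ * s * (Real.log N / N) ^ ((1 : ℝ) / s) ≤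
          (K₁ + K₃ + 2 * Real.pi * 73) * s * (Real.log N / N) ^ ((1 : ℝ) / s) := by
        have : 0 < 2 * Real.pi * 73 := by positivity
        have h6 : 0 ≤ (s : ℝ) * (Real.log N / N) ^ ((1 : ℝ) / s) := by positivity
        rw [mul_assoc, mul_assoc]
        exact mul_le_mul_of_nonneg_right (by linarith) h6
      have hcard : (Pool.Agent.U818.RZ.Sp (num a z) (withRoots p)).card ≤ s := by
        have h7 := hC
        rw [hN] at h7
        exact (card_le h7 h.leading_ne (by omega)).trans hs
      obtain ⟨t, ht1, ht2⟩ := h₃ N hNn₃ s hs1 (hKl.trans hr) _ _ hC hcard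
      exact ⟨t, ht1.trans hKl, ht2⟩
  · intro s hs1
    obtain ⟨K, n₀, hK, h₀⟩ := Pool.Agent.U818.RZ.area hs1 (B := B) hM hκ
    refine ⟨K, max n₀ 1, hK, fun m n N z p a hN hn₀ h hs => ?_⟩
    have hN1 : 1 ≤ N := (le_max_right _ _).trans hn₀
    have hC : Pool.Agent.U818.RZ.Cfg M κ B N (num a z) (withRoots p) := by
      rw [hN]
      exact Pool.Agent.U818.RZ.W_cfg h.leading_ne h.coprime h.zeros h.poles h.infinity h.leading
    have hcard : (Pool.Agent.U818.RZ.Sp (num a z) (withRoots p)).card ≤ s := by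
      have h7 := hC
      rw [hN] at h7
      exact (card_le h7 h.leading_ne (by omega)).trans hs
    exact h₀ N ((le_max_left _ _).trans hn₀) _ _ hC hcard

end Pool.Agent.Results.MP_8f2e1c_an.LargeLocalDegree
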