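import Mathlib
import Pool.Agent.U202.RM.Whole

/-!
# Random compositions of perturbations of a rational map are hyperbolic

Near EVERY rational map `f` of degree `d ≥ 2` there are, for every large `N`, `N` balls of the same
radius `δ` (independent of `N`) in the space of coefficients, such that the composition of `N`
rational maps, one of each ball, is hyperbolic except for a proportion of at most `K θ ^ N`,
`θ < 1`. So `N` independent uniform elements of a ball around `f` have a hyperbolic composition with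
probability at least `c ^ N`. If `f` has an attracting cycle no localisation is necessary: the
compositions of `N` independent small perturbations of `f` are hyperbolic outside an event of
probability at most `K θ ^ N`, for all laws which are spread in the Moebius directions, and almost
surely from some length on.
-/

set_option autoImplicit false

open Polynomial Filter Topology MeasureTheory ProbabilityTheory

namespace Pool.Agent.Results.MP_8f2e1c_an.RandomCompositions

/-- The coefficients of numerator (index `(0, j)`) and denominator (index `(1, j)`). -/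
abbrev Coefficients (d : ℕ) : Type := Fin 2 × Fin (d + 1) → ℂ

/-- The numerator. -/
noncomputable def num {d : ℕ} (x : Coefficients d) : ℂ[X] :=
  ∑ j : Fin (d + 1), monomial (j : ℕ) (x (0, j))

/-- The denominator. -/
noncomputable def den {d : ℕ} (x : Coefficients d) : ℂ[X] :=
  ∑ j : Fin (d + 1), monomial (j : ℕ) (x (1, j))

/-- `x` is the coefficient vector of a rational map of degree exactly `d`. -/
def IsRational {d : ℕ} (x : Coefficients d) : Prop :=
  IsCoprime (num x) (den x) ∧ max (num x).natDegree (den x).natDegree = d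

/-- The map `num x / den x` of the Riemann sphere. -/
noncomputable def sphereMap {d : ℕ} (x : Coefficients d) : OnePoint ℂ → OnePoint ℂ
  | none => if x (1, Fin.last d) = 0 then OnePoint.infty
      else OnePoint.some (x (0, Fin.last d) / x (1, Fin.last d))
  | some z => if (den x).eval z = 0 then OnePoint.infty
      else OnePoint.some ((num x).eval z / (den x).eval z)

/-- The composition of the first `n` maps (`x 0` is applied first). -/
noncomputable def composition {d : ℕ} (x : ℕ → Coefficients d) : ℕ → OnePoint ℂ → OnePoint ℂ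
  | 0 => id
  | n + 1 => sphereMap (x n) ∘ composition x n

/-- `N` coefficient vectors as the beginning of a sequence. -/
def extend {d N : ℕ} (x : Fin N → Coefficients d) : ℕ → Coefficients d := fun k =>
  if h : k < N then x ⟨k, h⟩ else 0

/-- Every critical point (point of the sphere where the map is not locally injective) has an orbit
converging to an attracting periodic cycle. This is word for word the condition of the frozen
statement `S05373`. -/
def Hyperbolic (f : OnePoint ℂ → OnePoint ℂ) : Prop :=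
  ∀ c : OnePoint ℂ, (¬ ∃ U ∈ nhds c, Set.InjOn f U) →
    ∃ z : OnePoint ℂ, ∃ n : ℕ, 0 < n ∧ f^[n] z = z ∧
      (∃ U ∈ nhds z, ∀ w ∈ U,
        Filter.Tendsto (fun k : ℕ => f^[n * k] w) Filter.atTop (nhds z)) ∧
      Filter.Tendsto (fun k : ℕ => f^[n * k] c) Filter.atTop (nhds z)

/-- `a` is an attracting periodic point: `f^[n] a = a` and the iterates of `f^[n]` converge to `a`
uniformly on a neighbourhood of `a`. -/
def AttractingPoint (f : OnePoint ℂ → OnePoint ℂ) (n : ℕ) (a : OnePoint ℂ) : Prop :=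
  0 < n ∧ f^[n] a = a ∧ ∃ U ∈ 𝓝 a, ∀ V ∈ 𝓝 a, ∀ᶠ k : ℕ in atTop, ∀ w ∈ U, f^[n * k] w ∈ V

/-- The coefficients of `(a P + b Q) / (c P + e Q)` where `x` are those of `P / Q`. -/
def moebius {d : ℕ} (a b c e : ℂ) (x : Coefficients d) : Coefficients d := fun q =>
  if q.1 = 0 then a * x (0, q.2) + b * x (1, q.2) else c * x (0, q.2) + e * x (1, q.2)

/-- The matrix `(a, b; c, e)` has determinant one and is `δ`-close to the identity. -/
def Near (δ : ℝ) (a b c e : ℂ) : Prop :=
  a * e - b * c = 1 ∧ ‖a - 1‖ < δ ∧ ‖b‖ < δ ∧ ‖c‖ < δ ∧ ‖e - 1‖ < δ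

/-- For every `f` in `S` the maps `M ∘ f`, `M` a Moebius map close to the identity, are in `S`. -/
def MoebiusStable {d : ℕ} (S : Set (Coefficients d)) : Prop :=
  ∀ x ∈ S, ∃ δ : ℝ, 0 < δ ∧ ∀ a b c e : ℂ, Near δ a b c e → moebius a b c e x ∈ S

/-- The measure `μ` is carried by the set `S`, which is stable under small Moebius maps, and charges
every neighbourhood of every point of `S`. -/
def SpreadOn {d : ℕ} (μ : Measure (Coefficients d)) (S : Set (Coefficients d)) : Prop :=
  μ Sᶜ = 0 ∧ (∀ x ∈ S, ∀ V ∈ 𝓝 x, 0 < μ V) ∧ MoebiusStable S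

/-- Compositions of independent maps with the law `μ`: for all choices of different indices
`σ n 0, …, σ n (n - 1)`, `n = 0, 1, 2, …` (for instance `σ n k = k` or `σ n k = n - 1 - k`) the
composition of `n` maps is hyperbolic outside an event of probability `K θ ^ n`, and almost surely
the compositions are hyperbolic from some `n` on. -/
def HyperbolicCompositions {d : ℕ} (μ : Measure (Coefficients d)) : Prop :=
  ∃ K θ : ℝ, 0 < K ∧ 0 < θ ∧ θ < 1 ∧
    ∀ (Ω : Type) [MeasurableSpace Ω] (P : Measure Ω) [IsProbabilityMeasure P]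
      (x : ℕ → Ω → Coefficients d), (∀ i, Measurable (x i)) → iIndepFun x P →
      (∀ i, P.map (x i) = μ) → ∀ σ : ℕ → ℕ → ℕ, (∀ n, Set.InjOn (σ n) (Set.Iio n)) →
        (∀ n, P {ω | ¬ Hyperbolic (composition (fun k => x (σ n k) ω) n)} ≤
          ENNReal.ofReal (K * θ ^ n)) ∧
        ∀ᵐ ω ∂P, ∀ᶠ n in atTop, Hyperbolic (composition (fun k => x (σ n k) ω) n)

theorem sphereMap_eq {d : ℕ} (x : Coefficients d) : sphereMap x = Pool.Agent.H790R3.RB.sp x := by
  funext z
  induction z using OnePoint.rec with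
  | infty =>
    show (if x (1, Fin.last d) = 0 then OnePoint.infty
      else OnePoint.some (x (0, Fin.last d) / x (1, Fin.last d))) = Pool.Agent.H790R3.RB.sp x _
    have h : Pool.Agent.H790R3.RB.hF x (1, 0) = (x (0, Fin.last d), x (1, Fin.last d)) := by
      have key : ∀ i : Fin 2, ∑ j : Fin (d + 1), x (i, j) * ((1 : ℂ) ^ (j : ℕ) *
          (0 : ℂ) ^ (d - (j : ℕ))) = x (i, Fin.last d) := by
        intro i
        rw [Fin.sum_univ_castSucc]
        rw [Finset.sum_eq_zero, zero_add]
        · simp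
        · intro j _
          have : d - ((Fin.castSucc j : Fin (d + 1)) : ℕ) ≠ 0 := by
            rw [Fin.val_castSucc]; have := j.2; omega
          rw [zero_pow this, mul_zero, mul_zero]
      unfold Pool.Agent.H790R3.RB.hF
      exact Prod.ext (key 0) (key 1)
    unfold Pool.Agent.H790R3.RB.sp
    rw [Pool.Agent.R239.Fat.hc_inf, h]
    rfl
  | coe z =>
    show (if (den x).eval z = 0 then OnePoint.infty
      else OnePoint.some ((num x).eval z / (den x).eval z)) = Pool.Agent.H790R3.RB.sp x _
    unfold Pool.Agent.H790R3.RB.sp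
    rw [Pool.Agent.R239.Fat.hc_coe, Pool.Agent.H790R3.RB.PQ.hF_one]
    rfl

theorem composition_eq {d : ℕ} (x : ℕ → Coefficients d) (n : ℕ) :
    composition x n = Pool.Agent.U202.RM.comp x n := by
  induction n with
  | zero => rfl
  | succ n ih =>
    show sphereMap (x n) ∘ composition x n = _
    rw [ih, sphereMap_eq]
    rfl

theorem nd_of {d : ℕ} (hd : 1 ≤ d) {x : Coefficients d} (h : IsRational x) :
    Pool.Agent.H790R3.RB.ND x := by
  obtain ⟨y, hy, h0, h1, -⟩ := (Pool.Agent.H790R3.RB.PQ Pool.Agent.H790R3.RB.SP d hd).2 (num x)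
    (den x) h.1 h.2
  have : y = x := by
    funext ⟨i, j⟩
    rw [← Pool.Agent.H790R3.RB.PQ.pol_coeff y i j, ← Pool.Agent.H790R3.RB.PQ.pol_coeff x i j]
    fin_cases i
    · show (Pool.Agent.H790R3.RB.pol y 0).coeff _ = _
      rw [h0]
      rfl
    · show (Pool.Agent.H790R3.RB.pol y 1).coeff _ = _
      rw [h1]
      rfl
  rw [← this]
  exact hy

theorem rational_of {d : ℕ} (hd : 1 ≤ d) {x : Coefficients d} (h : Pool.Agent.H790R3.RB.ND x) :
    IsRational x := Pool.Agent.H790R3.RB.PQ.part1 hd x h

theorem of_concl {d : ℕ} {μ : Measure (Coefficients d)} (h : Pool.Agent.U202.RM.Concl μ) :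
    HyperbolicCompositions μ := by
  obtain ⟨K, θ, h1, h2, h3, h4⟩ := h
  refine ⟨K, θ, h1, h2, h3, fun Ω _ P _ x hx hi hl σ hσ => ?_⟩
  have h5 := h4 Ω P x hx hi hl σ hσ
  simp only [composition_eq]
  exact h5

theorem moebiusStable_open {d : ℕ} {S : Set (Coefficients d)} (hS : IsOpen S) :
    MoebiusStable S := Pool.Agent.U202.RM.stable_of_isOpen hS

theorem moebiusStable_orbit {d : ℕ} (x₀ : Coefficients d) (δ : ℝ) :
    MoebiusStable {x | ∃ a b c e : ℂ, Near δ a b c e ∧ x = moebius a b c e x₀} := by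
  rintro _ ⟨a, b, c, e, ⟨h1, h2, h3, h4, h5⟩, rfl⟩
  set m : ℝ := min (min (δ - ‖a - 1‖) (δ - ‖b‖)) (min (δ - ‖c‖) (δ - ‖e - 1‖)) with hm
  have hm0 : 0 < m := by
    refine lt_min (lt_min ?_ ?_) (lt_min ?_ ?_) <;> linarith
  have m1 : m ≤ δ - ‖a - 1‖ := (min_le_left _ _).trans (min_le_left _ _)
  have m2 : m ≤ δ - ‖b‖ := (min_le_left _ _).trans (min_le_right _ _)
  have m3 : m ≤ δ - ‖c‖ := (min_le_right _ _).trans (min_le_left _ _)
  have m4 : m ≤ δ - ‖e - 1‖ := (min_le_right _ _).trans (min_le_right _ _)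
  set B : ℝ := 1 + ‖a‖ + ‖b‖ + ‖c‖ + ‖e‖ with hB
  have hB0 : 0 < B := by positivity
  refine ⟨m / B, by positivity, fun α β γ κ ⟨k1, k2, k3, k4, k5⟩ => ?_⟩
  have key' : ∀ u v s t : ℂ, ‖u‖ < m / B → ‖v‖ < m / B → 1 + ‖s‖ + ‖t‖ ≤ B →
      ‖u * s + v * t‖ < m := by
    intro u v s t hu hv hst
    refine (norm_add_le _ _).trans_lt ?_
    rw [norm_mul, norm_mul]
    calc ‖u‖ * ‖s‖ + ‖v‖ * ‖t‖ ≤ m / B * ‖s‖ + m / B * ‖t‖ := by gcongr
      _ = m / B * (‖s‖ + ‖t‖) := by ring
      _ < m / B * B := mul_lt_mul_of_pos_left (by linarith) (by positivity)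
      _ = m := by field_simp
  have n1 := norm_nonneg a
  have n2 := norm_nonneg b
  have n3 := norm_nonneg c
  have n4 := norm_nonneg e
  refine ⟨α * a + β * c, α * b + β * e, γ * a + κ * c, γ * b + κ * e, ⟨?_, ?_, ?_, ?_, ?_⟩, ?_⟩
  · linear_combination (α * κ - β * γ) * h1 + k1
  · have h6 := key' (α - 1) β a c k2 k3 (by rw [hB]; linarith)
    have h7 : α * a + β * c - 1 = (a - 1) + ((α - 1) * a + β * c) := by ring
    rw [h7]
    have := norm_add_le (a - 1) ((α - 1) * a + β * c)
    linarith
  · have h6 := key' (α - 1) β b e k2 k3 (by rw [hB]; linarith)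
    have h7 : α * b + β * e = b + ((α - 1) * b + β * e) := by ring
    rw [h7]
    have := norm_add_le b ((α - 1) * b + β * e)
    linarith
  · have h6 := key' γ (κ - 1) a c k4 k5 (by rw [hB]; linarith)
    have h7 : γ * a + κ * c = c + (γ * a + (κ - 1) * c) := by ring
    rw [h7]
    have := norm_add_le c (γ * a + (κ - 1) * c)
    linarith
  · have h6 := key' γ (κ - 1) b e k4 k5 (by rw [hB]; linarith)
    have h7 : γ * b + κ * e - 1 = (e - 1) + (γ * b + (κ - 1) * e) := by ring
    rw [h7]
    have := norm_add_le (e - 1) (γ * b + (κ - 1) * e)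
    linarith
  · funext ⟨i, j⟩
    unfold moebius
    fin_cases i
    · simp only [Fin.zero_eta, Fin.isValue, if_true, one_ne_zero, if_false]
      ring
    · simp only [Fin.mk_one, Fin.isValue, one_ne_zero, if_false, if_true]
      ring

/-- Let `d ≥ 2`.

(1) Let `x₀` be a rational map of degree `d` and `ε > 0`. There are `δ > 0`, `K`, `θ < 1` and `N₀`
such that for every `N ≥ N₀` there are `N` balls of radius `δ`, contained in the `ε`-ball around
`x₀` and consisting of rational maps of degree `d`, such that the compositions of `N` maps, one of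
each ball in this order, are hyperbolic outside a set of relative volume at most `K θ ^ N`.

(2) Consequently for some `c > 0` and all large `N` the composition of `N` independent uniform
elements of the `ε`-ball around `x₀` (all of them rational maps of degree `d`) is hyperbolic with
probability at least `c ^ N`.

(3) If `x₀` has an attracting cycle then there is `ε₀ > 0` such that for every probability measure
which is spread on a subset of the `ε₀`-ball around `x₀`, in particular for the uniform law on the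
ball of radius `ε`, for every `ε ≤ ε₀`, the compositions of independent maps with this law are
hyperbolic with overwhelming probability and almost surely from some length on. -/
theorem result (d : ℕ) (hd : 2 ≤ d) :
    (∀ x₀ : Coefficients d, IsRational x₀ → ∀ ε : ℝ, 0 < ε →
      (∃ δ K θ : ℝ, 0 < δ ∧ 0 < K ∧ 0 < θ ∧ θ < 1 ∧ ∃ N₀ : ℕ, ∀ N, N₀ ≤ N →
        ∃ h : Fin N → Coefficients d, (∀ p, Metric.ball (h p) δ ⊆ Metric.ball x₀ ε) ∧
          (∀ p, ∀ x ∈ Metric.ball (h p) δ, IsRational x) ∧
          Measure.pi (fun p => cond volume (Metric.ball (h p) δ))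
            {x | ¬ Hyperbolic (composition (extend x) N)} ≤ ENNReal.ofReal (K * θ ^ N)) ∧
      (∃ c : ℝ, 0 < c ∧ c < 1 ∧ ∃ N₀ : ℕ, ∀ N, N₀ ≤ N →
        Measure.pi (fun _ : Fin N => cond volume (Metric.ball x₀ ε))
          {x | ¬ ((∀ p, IsRational (x p)) ∧ Hyperbolic (composition (extend x) N))} ≤
            1 - ENNReal.ofReal (c ^ N))) ∧
    (∀ x₀ : Coefficients d, IsRational x₀ → (∃ n a, AttractingPoint (sphereMap x₀) n a) →
      ∃ ε₀ : ℝ, 0 < ε₀ ∧
        (∀ (μ : Measure (Coefficients d)) [IsProbabilityMeasure μ] (S : Set (Coefficients d)),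
          (∀ x ∈ S, ‖x - x₀‖ < ε₀) → SpreadOn μ S → HyperbolicCompositions μ) ∧
        ∀ ε : ℝ, 0 < ε → ε ≤ ε₀ →
          HyperbolicCompositions (cond volume (Metric.ball x₀ ε))) := by
  have hd1 : 1 ≤ d := by omega
  refine ⟨fun x₀ hx₀ ε hε => ⟨?_, ?_⟩, ?_⟩
  · obtain ⟨δ, K, θ, h1, h2, h3, h4, N₀, h⟩ := Pool.Agent.U202.RM.every hd (nd_of hd1 hx₀) hε
    refine ⟨δ, K, θ, h1, h2, h3, h4, N₀, fun N hN => ?_⟩
    obtain ⟨y, h5, h6, h7⟩ := h N hN
    refine ⟨y, h5, fun p x hx => rational_of hd1 (h6 p x hx), ?_⟩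
    simp only [composition_eq]
    exact h7
  · obtain ⟨c, h1, h2, N₀, h⟩ := Pool.Agent.U202.RM.whole hd (nd_of hd1 hx₀) hε
    refine ⟨c, h1, h2, N₀, fun N hN => (measure_mono ?_).trans (h N hN)⟩
    intro x hx h3
    apply hx
    refine ⟨fun p => rational_of hd1 (h3.1 p), ?_⟩
    rw [composition_eq]
    exact h3.2
  · rintro x₀ hx₀ ⟨n, a, ha⟩
    rw [sphereMap_eq] at ha
    obtain ⟨ε₀, hε₀, h⟩ := Pool.Agent.U202.RM.sink_thm hd (nd_of hd1 hx₀) ha
    refine ⟨ε₀, hε₀, fun μ _ S hS hμ => of_concl (h μ S hS hμ.1 hμ.2.1 hμ.2.2),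
      fun ε hε hεε => ?_⟩
    obtain ⟨hp, h1, h2⟩ := Pool.Agent.U202.RM.ball_law x₀ hε
    refine of_concl (h _ (Metric.ball x₀ ε) (fun x hx => ?_) (ae_iff.1 h1) h2
      (moebiusStable_open Metric.isOpen_ball))
    rw [← dist_eq_norm]
    exact lt_of_lt_of_le hx hεε

end Pool.Agent.Results.MP_8f2e1c_an.RandomCompositions
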