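import Mathlib
import Pool.Agent.U1.HD.Main
import Pool.Agent.U1.HD.GenArea
import Pool.Agent.U1.HD.Pow3

/-!
# Coarse density of hyperbolicity near all rational maps with two separated fibres

Let `R = P / Q` be a rational map of degree `N` and let `M` be the Moebius map with `M 0 = v`,
`M ∞ = w`, `M (-1) = ∞`. The map `M ∘ R = (w P + v Q) / (P + Q)` has the zeros of `P` as its fibre
over `v` and the zeros of `Q` as its fibre over `w`; all rational maps with two given fibres over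
finite values are of this form, after scaling of `P`. We show for large classes of maps `R` of large
degree `N`, described by inequalities on the zeros and poles, that `M ∘ R` is hyperbolic for all
`(v, w)` outside a set of volume `O (log N / N)`, and that each `(v, w)` is at distance
`O (log N / N)` (or its square root) from a pair with a hyperbolic map.
-/

set_option autoImplicit false

open Polynomial Filter Topology MeasureTheory

namespace Pool.Agent.Results.MP_8f2e1c_an.SeparatedFibres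

/-- `P / Q` is in lowest terms and every critical point (point of the Riemann sphere where the map
is not locally injective) has an orbit converging to an attracting periodic cycle. This is word
for word the condition of the frozen statement `S05373`. -/
def Hyperbolic (P Q : Polynomial ℂ) : Prop :=
  IsCoprime P Q ∧ ∃ f : OnePoint ℂ → OnePoint ℂ, Continuous f ∧
    (∀ z : ℂ, Q.eval z ≠ 0 →
      f (OnePoint.some z) = OnePoint.some (P.eval z / Q.eval z)) ∧
    ∀ c : OnePoint ℂ, (¬ ∃ U ∈ nhds c, Set.InjOn f U) →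
      ∃ z : OnePoint ℂ, ∃ n : ℕ, 0 < n ∧ f^[n] z = z ∧
        (∃ U ∈ nhds z, ∀ w ∈ U,
          Filter.Tendsto (fun k : ℕ => f^[n * k] w) Filter.atTop (nhds z)) ∧
        Filter.Tendsto (fun k : ℕ => f^[n * k] c) Filter.atTop (nhds z)

/-- Coarse density of hyperbolicity in the family of the maps `(w P + v Q) / (P + Q)`, `v ≠ w`,
`|v|, |w| ≤ L`: the pairs `(v, w)` with a non-hyperbolic map have volume at most `r`, and at distance
at most `s` from each pair there is a pair with a hyperbolic map. -/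
structure CoarselyDense (L r s : ℝ) (P Q : Polynomial ℂ) : Prop where
  volume_le : volume {x : ℂ × ℂ | ‖x.1‖ ≤ L ∧ ‖x.2‖ ≤ L ∧ x.1 ≠ x.2 ∧
    ¬ Hyperbolic (C x.2 * P + C x.1 * Q) (P + Q)} ≤ ENNReal.ofReal r
  near : ∀ v w : ℂ, ‖v‖ ≤ L → ‖w‖ ≤ L → v ≠ w → ∃ v' w' : ℂ, v' ≠ w' ∧
    ‖v' - v‖ ≤ s ∧ ‖w' - w‖ ≤ s ∧ Hyperbolic (C w' * P + C v' * Q) (P + Q)

/-- `R = P / Q` is a rational map of degree `N`, in lowest terms, and at each point of the sphere
which is not a zero or a pole of `R` either `log |R|` or its spherical gradient (here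
`(1 + |z| ^ 2) |R' / R|`) is at least `δ N` in absolute value; at `∞` only the first alternative is
allowed. -/
structure Transverse (δ : ℝ) (N : ℕ) (P Q : Polynomial ℂ) : Prop where
  coprime : IsCoprime P Q
  degree : max P.natDegree Q.natDegree = N
  finite : ∀ z : ℂ, P.eval z ≠ 0 → Q.eval z ≠ 0 →
    δ * N ≤ |Real.log (‖P.eval z‖ / ‖Q.eval z‖)| ∨
      δ * N ≤ (1 + ‖z‖ ^ 2) *
        ‖(derivative P).eval z / P.eval z - (derivative Q).eval z / Q.eval z‖
  infinity : P.coeff N = 0 ∨ Q.coeff N = 0 ∨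
    δ * N ≤ |Real.log (‖P.coeff N‖ / ‖Q.coeff N‖)|

/-- The polynomial with leading coefficient `μ` and zeros `a x`. -/
noncomputable def withRoots {ι : Type} [Fintype ι] (μ : ℂ) (a : ι → ℂ) : Polynomial ℂ :=
  C μ * ∏ x, (X - C (a x))

/-- The polynomial with value `1` at `0` and zeros `1 / b x` (for `b x ≠ 0`). -/
noncomputable def withPoles {ι : Type} [Fintype ι] (b : ι → ℂ) : Polynomial ℂ :=
  ∏ x, (1 - C (b x) * X)

/-- The map `μ ∏ (z - a x) / ∏ (z - b x)` is `η`-close to the `m`-th power of the map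
`B = lam ∏ (z - α i) / ∏ (z - β j)`: near each `α i` there are `m` of the zeros `a x`, near each
`β j` there are `m` of the poles `b x`, and `log |μ|` is close to `m log |lam|`. -/
structure CloseToPower (η : ℝ) {d e : ℕ} (lam : ℂ) (α : Fin d → ℂ) (β : Fin e → ℂ) (m : ℕ) (μ : ℂ)
    (a : Fin d × Fin m → ℂ) (b : Fin e × Fin m → ℂ) : Prop where
  zeros : ∀ x, ‖a x - α x.1‖ ≤ η
  poles : ∀ x, ‖b x - β x.1‖ ≤ η
  ne : μ ≠ 0
  const : |Real.log ‖μ‖ - m * Real.log ‖lam‖| ≤ η * m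

/-- `B = lam ∏ (z - α i) / ∏ (z - β j)` is in lowest terms and not constant, `|B(∞)| ≠ 1`, and no
critical point `z` of `B` has `|B(z)| = 1`. -/
structure RegularEquator {d e : ℕ} (lam : ℂ) (α : Fin d → ℂ) (β : Fin e → ℂ) : Prop where
  pos : 1 ≤ max d e
  ne : lam ≠ 0
  coprime : ∀ i j, α i ≠ β j
  infinity : d = e → ‖lam‖ ≠ 1
  critical : ∀ z : ℂ, (∀ i, z ≠ α i) → (∀ j, z ≠ β j) →
    ‖lam‖ * ∏ i, ‖z - α i‖ = ∏ j, ‖z - β j‖ → ∑ i, 1 / (z - α i) - ∑ j, 1 / (z - β j) ≠ 0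

theorem hyp_iff {A B : Polynomial ℂ} : Hyperbolic A B ↔ Pool.Agent.U1.HD.HypP A B := Iff.rfl

theorem not_crit {d e : ℕ} {lam : ℂ} {α : Fin d → ℂ} {β : Fin e → ℂ}
    (h : RegularEquator lam α β) (z : ℂ) (hα : ∀ i, z ≠ α i) (hβ : ∀ j, z ≠ β j)
    (h0 : Pool.Agent.U1.HD.lg lam α β z = 0) : Pool.Agent.U1.HD.ld α β z ≠ 0 := by
  refine h.critical z hα hβ ?_
  have h1 : 0 < ‖lam‖ := norm_pos_iff.2 h.ne
  have h2 : ∀ i ∈ (Finset.univ : Finset (Fin d)), ‖z - α i‖ ≠ 0 := fun i _ =>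
    norm_ne_zero_iff.2 (sub_ne_zero.2 (hα i))
  have h3 : ∀ j ∈ (Finset.univ : Finset (Fin e)), ‖z - β j‖ ≠ 0 := fun j _ =>
    norm_ne_zero_iff.2 (sub_ne_zero.2 (hβ j))
  have h4 : 0 < ∏ i, ‖z - α i‖ := Finset.prod_pos fun i hi => (norm_nonneg _).lt_of_ne' (h2 i hi)
  have h5 : 0 < ∏ j, ‖z - β j‖ := Finset.prod_pos fun j hj => (norm_nonneg _).lt_of_ne' (h3 j hj)
  refine Real.log_injOn_pos (by simpa using mul_pos h1 h4) (by simpa using h5) ?_
  rw [Real.log_mul h1.ne' h4.ne', Real.log_prod h2, Real.log_prod h3]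
  unfold Pool.Agent.U1.HD.lg at h0
  linarith

/-- (1) For all `δ > 0` and `L` there are `K` and `N₀` such that hyperbolicity is coarsely dense, with
volume at most `K log N / N` and distance at most `K √(log N / N)`, in the family of every
rational map `P / Q` of degree `N ≥ N₀` which is `δ`-transverse.

(2) Let `0 < σ`, `0 ≤ κ` with `2 σ exp κ < 1 - σ ^ 2`, and `L ≥ 0`. There are `τ` in `(σ, 1)`, `K`
and `N₀` such that for all `N ≥ N₀` and every rational map
`R = P / Q = μ ∏ (z - a i) / ∏ (1 - b i z)` of degree `N` with `|a i| ≤ σ`, `|b i| ≤ σ` and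
`exp (-κ N) ≤ |μ| ≤ exp (κ N)` there is a subset `Z` of the annulus `τ < |z| < 1 / τ` of area at most
`K log N / N` such that: `(w P + v Q) / (P + Q)` is hyperbolic for all `v ≠ w` in `|z| ≤ L` off `Z`;
`R + v` is hyperbolic for all `v` in `|z| ≤ L` off `Z`; volume and distance in the first family are
at most `K log N / N`, and each `v` with `|v| ≤ L` is at distance at most `K log N / N` from some
`v'` such that `R + v'` is hyperbolic.

(3) Let `B` be a rational map with `|B(∞)| ≠ 1` and without critical points on `|B| = 1`, with `d`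
zeros and `e` poles in the plane, and let `L ≥ 0`. There are `η > 0`, `K` and `m₀` such that for all
`m ≥ m₀` and all maps `P / Q` of degree `N = m deg B` which are `η`-close to `B ^ m`, volume and
distance are at most `K log N / N`. -/
theorem result :
    (∀ δ L : ℝ, 0 < δ → 0 ≤ L → ∃ K : ℝ, 0 < K ∧ ∃ N₀ : ℕ, ∀ N : ℕ, N₀ ≤ N →
      ∀ P Q : Polynomial ℂ, Transverse δ N P Q →
        CoarselyDense L (K * (Real.log N / N)) (K * Real.sqrt (Real.log N / N)) P Q) ∧
    (∀ σ κ L : ℝ, 0 < σ → 0 ≤ κ → Real.exp κ * (2 * σ) < 1 - σ ^ 2 → 0 ≤ L →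
      ∃ τ K : ℝ, σ < τ ∧ τ < 1 ∧ 0 < K ∧ ∃ N₀ : ℕ, ∀ N : ℕ, N₀ ≤ N →
        ∀ (μ : ℂ) (a b : Fin N → ℂ), (∀ i, ‖a i‖ ≤ σ) → (∀ i, ‖b i‖ ≤ σ) →
          Real.exp (-(κ * N)) ≤ ‖μ‖ → ‖μ‖ ≤ Real.exp (κ * N) →
          IsCoprime (withRoots μ a) (withPoles b) ∧
          max (withRoots μ a).natDegree (withPoles b).natDegree = N ∧
          CoarselyDense L (K * (Real.log N / N)) (K * (Real.log N / N))
            (withRoots μ a) (withPoles b) ∧
          ∃ Z : Set ℂ, Z ⊆ {z : ℂ | τ < ‖z‖ ∧ ‖z‖ < τ⁻¹} ∧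
            volume Z ≤ ENNReal.ofReal (K * (Real.log N / N)) ∧
            (∀ v w : ℂ, ‖v‖ ≤ L → ‖w‖ ≤ L → v ≠ w → v ∉ Z → w ∉ Z →
              Hyperbolic (C w * withRoots μ a + C v * withPoles b)
                (withRoots μ a + withPoles b)) ∧
            (∀ v : ℂ, ‖v‖ ≤ L → v ∉ Z →
              Hyperbolic (withRoots μ a + C v * withPoles b) (withPoles b)) ∧
            ∀ v : ℂ, ‖v‖ ≤ L → ∃ v' : ℂ, ‖v' - v‖ ≤ K * (Real.log N / N) ∧
              Hyperbolic (withRoots μ a + C v' * withPoles b) (withPoles b)) ∧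
    ∀ (d e : ℕ) (lam : ℂ) (α : Fin d → ℂ) (β : Fin e → ℂ) (L : ℝ), RegularEquator lam α β →
      0 ≤ L → ∃ η K : ℝ, 0 < η ∧ 0 < K ∧ ∃ m₀ : ℕ, ∀ m : ℕ, m₀ ≤ m →
        ∀ (μ : ℂ) (a : Fin d × Fin m → ℂ) (b : Fin e × Fin m → ℂ),
          CloseToPower η lam α β m μ a b →
          IsCoprime (withRoots μ a) (withRoots 1 b) ∧
          max (withRoots μ a).natDegree (withRoots 1 b).natDegree = max d e * m ∧
          CoarselyDense L (K * (Real.log (max d e * m : ℕ) / (max d e * m : ℕ)))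
            (K * (Real.log (max d e * m : ℕ) / (max d e * m : ℕ)))
            (withRoots μ a) (withRoots 1 b) := by
  refine ⟨?_, ?_, ?_⟩
  · intro δ L hδ hL
    obtain ⟨K, hK, N₀, h⟩ := Pool.Agent.U1.HD.mainG hδ hL
    refine ⟨K, hK, N₀, fun N hN P Q hPQ => ?_⟩
    obtain ⟨-, -, h1, h2⟩ := h N hN P Q ⟨hPQ.coprime, hPQ.degree, hPQ.finite, hPQ.infinity⟩
    exact ⟨h1, h2⟩
  · intro σ κ L hσ hκ0 hκ hL
    obtain ⟨τ, h1, h2, N₁, h3⟩ := Pool.Agent.U1.HD.explicit hσ hκ0 hκ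
    obtain ⟨K, hK, N₀, h4⟩ := Pool.Agent.U1.HD.main hσ h1 h2 hL
    refine ⟨τ, K, h1, h2, hK, max N₀ N₁, fun N hN μ a b ha hb hμ1 hμ2 => ?_⟩
    have hμ : μ ≠ 0 := norm_pos_iff.1 ((Real.exp_pos _).trans_le hμ1)
    have h5 := h3 N ((le_max_right _ _).trans hN) μ a b ha hb hμ1 hμ2
    obtain ⟨⟨h6, h7⟩, h8, h9, h10, h11, h12⟩ := h4 N ((le_max_left _ _).trans hN) μ a b hμ h5
    refine ⟨Pool.Agent.U1.HD.coprime_of hσ.le (h1.trans h2) ha hb hμ, ?_, ⟨h10, h11⟩,
      Pool.Agent.U1.HD.Zone μ a b, h6, h7, h8, h9, h12⟩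
    have e1 : (withRoots μ a).natDegree = N := Pool.Agent.U1.HD.num_natDegree hμ
    have e2 : (withPoles b).natDegree ≤ N := Pool.Agent.U1.HD.den_natDegree_le
    rw [e1]
    exact max_eq_left e2
  · intro d e lam α β L hB hL
    obtain ⟨η, K, h1, h2, m₀, h3⟩ := Pool.Agent.U1.HD.powers hB.pos hB.ne
      (fun hde => Real.log_ne_zero_of_pos_of_ne_one (norm_pos_iff.2 hB.ne) (hB.infinity hde))
      α β hB.coprime (not_crit hB) hL
    refine ⟨η, K, h1, h2, m₀, fun m hm μ a b hab => ?_⟩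
    obtain ⟨h4, h5, h6, h7⟩ := h3 m hm μ a b ⟨hab.zeros, hab.poles, hab.ne, hab.const⟩
    exact ⟨h4, h5, h6, h7⟩

end Pool.Agent.Results.MP_8f2e1c_an.SeparatedFibres
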