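import Mathlib
import Pool.Agent.U598.FT.Typ2

/-!
# Every hyperbolic type occurs in the strata and in the symmetric families of polynomials, within
`A * sqrt (area K)`

The critical points of the approximating hyperbolic polynomials have the same multiplicities as
those of the given polynomial, and symmetric polynomials (`Q (z ^ k)` or `z * Q (z ^ k)`) are
approximated by hyperbolic polynomials with the same symmetry. The constant `A` depends only on the
degree, the leading coefficient and a bound of the second coefficient.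
-/

set_option autoImplicit false

open Filter Topology Polynomial MeasureTheory

namespace Pool.Agent.Results.MP_8f2e1c_an.TypesInStrata

/-- The polynomial as a self-map of the plane. -/
def map (T : ℂ[X]) : ℂ → ℂ := fun w : ℂ => T.eval w

/-- The orbit of `z` escapes to infinity. -/
def Escapes (T : ℂ[X]) (z : ℂ) : Prop :=
  Tendsto (fun k : ℕ => ‖(map T)^[k] z‖) atTop atTop

/-- The filled Julia set: the points which do not escape. -/
def K (T : ℂ[X]) : Set ℂ := {z : ℂ | ¬ Escapes T z}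

/-- `S` is hyperbolic: every critical point escapes or is attracted by a sink. -/
def Hyperbolic (S : ℂ[X]) : Prop :=
  ∀ c : ℂ, (derivative S).eval c = 0 → Escapes S c ∨
    ∃ n : ℕ, 0 < n ∧ ∃ x : ℂ, (map S)^[n] x = x ∧ ‖deriv ((map S)^[n]) x‖ < 1 ∧
      Tendsto (fun l : ℕ => (map S)^[n * l] c) atTop (𝓝 x)

/-- The points `z i` are sinks of `S` with `S^(p i) (z i) = z i`, where the `p i` are different
primes, not less than `N`. -/
structure Sinks {κ : ℕ} (S : ℂ[X]) (N : ℕ) (p : Fin κ → ℕ) (z : Fin κ → ℂ) : Prop where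
  inj : Function.Injective p
  prime : ∀ i, (p i).Prime ∧ N ≤ p i
  fix : ∀ i, (map S)^[p i] (z i) = z i
  mul : ∀ i, ‖deriv ((map S)^[p i]) (z i)‖ < 1

/-- The point `c` is of the type `t`: it escapes if `t = none`, and it is attracted by the point
`ω * z i` if `t = some i`. -/
def Goes {κ : ℕ} (S : ℂ[X]) (p : Fin κ → ℕ) (z : Fin κ → ℂ) (t : Option (Fin κ)) (ω c : ℂ) : Prop :=
  (t = none → Escapes S c) ∧
    ∀ i, t = some i → Tendsto (fun l : ℕ => (map S)^[p i * l] c) atTop (𝓝 (ω * z i))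

/-- The coefficients of `S` and `T` differ by less than `ε`; the two leading ones are equal
(`n + 1` is the degree, `a` the leading coefficient). -/
structure Near (n : ℕ) (a : ℂ) (T S : ℂ[X]) (ε : ℝ) : Prop where
  deg : S.natDegree = n + 1
  lead : S.leadingCoeff = a
  snd : S.coeff n = T.coeff n
  near : ∀ i : ℕ, ‖S.coeff i - T.coeff i‖ < ε

section
open Pool.Agent.H713R3.ZA Pool.Agent.W820.BM Pool.Agent.U598.FT

variable {a : ℂ} {n m : ℕ} {P : (Fin m → ℂ) → PE n} {cl : Fin n → Fin m} {rep : Fin m → Fin n}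
  {ζ : Fin n → ℂ}

theorem goes_of {κ : ℕ} {τ : Fin m → Option (Fin κ)} {N : ℕ} {v : Fin m → ℂ} {p : Fin κ → ℕ}
    {z : Fin κ → ℂ} {r : Fin κ → Fin m} (h : ConclF a n m κ cl rep ζ τ N (P v) p z r) (i : Fin n) :
    Goes (fam a n (P v)) p z (τ (cl i)) (ζ i) (P v (some i)) :=
  ⟨h.esc i, h.att i⟩

theorem sinks_of {κ : ℕ} {τ : Fin m → Option (Fin κ)} {N : ℕ} {v : Fin m → ℂ} {p : Fin κ → ℕ}
    {z : Fin κ → ℂ} {r : Fin κ → Fin m} (h : ConclF a n m κ cl rep ζ τ N (P v) p z r) :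
    Sinks (fam a n (P v)) N p z := ⟨h.inj, h.prime, h.fix, h.mul⟩

/-- a rotated sink is a sink -/
theorem hyp_of (ha : a ≠ 0) (F : FM a n m P cl rep ζ) {κ : ℕ} {τ : Fin m → Option (Fin κ)} {N : ℕ}
    {v : Fin m → ℂ} {p : Fin κ → ℕ} {z : Fin κ → ℂ} {r : Fin κ → Fin m}
    (h : ConclF a n m κ cl rep ζ τ N (P v) p z r) : Hyperbolic (fam a n (P v)) := by
  intro c hc
  have h2 : deriv (fx a n (P v)) c = 0 := by
    have : deriv (fx a n (P v)) c = (derivative (fam a n (P v))).eval c := (fam a n (P v)).deriv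
    rw [this, hc]
  obtain ⟨i, rfl⟩ := exists_crit ha h2
  rcases hτ : τ (cl i) with _ | j
  · exact Or.inl (h.esc i hτ)
  · right
    refine ⟨p j, (h.prime j).1.pos, ζ i * z j, ?_, ?_, h.att i j hτ⟩
    · have h3 := F.sym_iter v i (p j) (z j)
      rw [h.fix j] at h3
      exact h3
    · have hd : Differentiable ℂ ((fx a n (P v))^[p j]) := (fx_differentiable a n (P v)).iterate _
      have h3 : (fun w : ℂ => (fx a n (P v))^[p j] (ζ i * w)) =
          fun w => ζ i * (fx a n (P v))^[p j] w := funext (F.sym_iter v i (p j))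
      have hζ : ζ i ≠ 0 := by
        rw [← norm_pos_iff, F.unit]; exact one_pos
      have h4 : HasDerivAt (fun w : ℂ => (fx a n (P v))^[p j] (ζ i * w))
          (deriv ((fx a n (P v))^[p j]) (ζ i * z j) * ζ i) (z j) := by
        have e1 : HasDerivAt (fun w : ℂ => ζ i * w) (ζ i) (z j) := by
          simpa using (hasDerivAt_id (z j)).const_mul (ζ i)
        exact (hd (ζ i * z j)).hasDerivAt.comp (z j) e1
      have h5 : HasDerivAt (fun w : ℂ => ζ i * (fx a n (P v))^[p j] w)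
          (ζ i * deriv ((fx a n (P v))^[p j]) (z j)) (z j) :=
        (hd (z j)).hasDerivAt.const_mul (ζ i)
      rw [h3] at h4
      have h6 := h4.unique h5
      have h7 : deriv ((fx a n (P v))^[p j]) (ζ i * z j) = deriv ((fx a n (P v))^[p j]) (z j) := by
        apply mul_right_cancel₀ hζ
        rw [h6, mul_comm]
      change ‖deriv ((fx a n (P v))^[p j]) (ζ i * z j)‖ < 1
      rw [h7]
      exact h.mul j

end

theorem pow_close {m : ℕ} (u : Fin m → ℂ) (k : ℕ) {ε : ℝ} (hε : 0 < ε) :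
    ∃ δ : ℝ, 0 < δ ∧ ∀ j v, ‖v - u j‖ < δ → ‖v ^ k - u j ^ k‖ < ε := by
  have h : ∀ j, ∀ᶠ δ : ℝ in 𝓝[>] 0, ∀ v, ‖v - u j‖ < δ → ‖v ^ k - u j ^ k‖ < ε := by
    intro j
    have hc : Continuous (fun v : ℂ => v ^ k) := continuous_pow k
    obtain ⟨δ, hδ, h⟩ := Metric.continuous_iff.mp hc (u j) ε hε
    filter_upwards [mem_nhdsWithin_of_mem_nhds (Iio_mem_nhds hδ)] with δ' hδ' v hv
    have := h v (by rw [dist_eq_norm]; exact hv.trans hδ')
    rwa [dist_eq_norm] at this
  obtain ⟨δ, h1, h2⟩ := ((Filter.eventually_all.mpr h).and eventually_mem_nhdsWithin).exists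
  exact ⟨δ, h2, h1⟩

theorem exists_eps {m : ℕ} (u : Fin m → ℂ) (k : ℕ) {ε A V : ℝ} (h : A * Real.sqrt V < ε) :
    ∃ ε' : ℝ, ε' ≤ ε ∧ A * Real.sqrt V < ε' ∧
      (V = 0 → ∀ j v, ‖v - u j‖ < ε' → ‖v ^ k - u j ^ k‖ < ε) := by
  by_cases hV : V = 0
  · subst hV
    rw [Real.sqrt_zero, mul_zero] at h ⊢
    obtain ⟨δ, hδ, h1⟩ := pow_close u k h
    exact ⟨min ε δ, min_le_left _ _, lt_min h hδ, fun _ j v hv =>
      h1 j v (hv.trans_le (min_le_right _ _))⟩
  · exact ⟨ε, le_rfl, h, fun h0 => absurd h0 hV⟩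

theorem rot_of_pow {k : ℕ} (hk : 1 ≤ k) {ω : ℂ} (hω : IsPrimitiveRoot ω k) {u v : ℂ}
    (h : u ^ k = v ^ k) : ∃ t : Fin k, u = ω ^ (t : ℕ) * v := by
  by_cases hv : v = 0
  · rw [hv, zero_pow (by omega)] at h
    have hu : u = 0 := pow_eq_zero_iff (by omega) |>.mp h
    exact ⟨⟨0, hk⟩, by rw [hu, hv, mul_zero]⟩
  · have h1 : (u / v) ^ k = 1 := by
      rw [div_pow, h, div_self (pow_ne_zero _ hv)]
    have : NeZero k := ⟨by omega⟩
    obtain ⟨t, ht, h2⟩ := hω.eq_pow_of_pow_eq_one h1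
    exact ⟨⟨t, ht⟩, by rw [h2, div_mul_cancel₀ _ hv]⟩

/-- Let `N = n + 1 ≥ 2` be a degree, `a ≠ 0` and `b` real. There is a constant `A`, which depends
only on `n`, `a`, `b`, with the following properties. Let `T` be a polynomial of degree `n + 1` with
leading coefficient `a`, `|T.coeff n| ≤ b`, none of whose critical points escapes (that is, with
connected filled Julia set `K T`), and let `ε > A * sqrt (area (K T))`.

(1) Prescribed multiplicities. Let `c j`, `j < m`, be the critical points of `T`, with the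
multiplicities `e j`. For every type `τ` (a prescription which of the `m` points are to escape and
which are to be attracted by each of the `κ` sinks) and every `N` there is a hyperbolic polynomial
`S` of degree `n + 1` of the type `τ` which also has `m` critical points `s j` of the SAME
multiplicities `e j`, and whose coefficients differ from those of `T` by less than `ε` (the two
leading ones are equal). The periods of the sinks divide different primes `≥ N`. If `K T` has zero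
area then moreover `|s j - c j| < ε` for all `j`, and the exact periods are these primes.

(2) The same for polynomials `T = Q (z ^ k)`, `k ≥ 2`, which are approximated by polynomials
`S = R (z ^ k)` of every type. Here `k` divides `s + 1` and the derivative of `T` is
`a (n + 1) z ^ s ∏ (z ^ k - w j) ^ (e j)`; the types of `0` and of the classes `{u | u ^ k = w j}` of
critical points are arbitrary.

(3) The same for polynomials `T = z * Q (z ^ k)`, `k ≥ 2`, which are approximated by polynomials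
`S = z * R (z ^ k)` of every type: the derivative of `T` is `a (n + 1) ∏ (z ^ k - w j) ^ (e j)`, and
the types of the classes `{u | u ^ k = w j}` are arbitrary, the critical point `ω * u` being attracted
by the rotated sink `ω * z i` if `u` is attracted by `z i` (`ω ^ k = 1`). -/
theorem result (n : ℕ) (hn : 1 ≤ n) (a : ℂ) (ha : a ≠ 0) (b : ℝ) : ∃ A : ℝ, 0 < A ∧
    -- (1) prescribed multiplicities
    (∀ (m : ℕ) (e : Fin m → ℕ), (∀ j, 1 ≤ e j) → ∑ j, e j = n →
      ∀ (T : ℂ[X]) (c : Fin m → ℂ),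
        derivative T = C (a * ((n : ℂ) + 1)) * ∏ j, (X - C (c j)) ^ (e j) →
        ‖T.coeff n‖ ≤ b → (∀ j, ¬ Escapes T (c j)) → volume (K T) < ⊤ ∧
        ∀ ε : ℝ, A * Real.sqrt (volume (K T)).toReal < ε →
        ∀ (κ : ℕ) (τ : Fin m → Option (Fin κ)), (∀ i, ∃ j, τ j = some i) → ∀ N : ℕ,
        ∃ (S : ℂ[X]) (s : Fin m → ℂ) (p : Fin κ → ℕ) (z : Fin κ → ℂ),
          derivative S = C (a * ((n : ℂ) + 1)) * ∏ j, (X - C (s j)) ^ (e j) ∧
          Near n a T S ε ∧ Hyperbolic S ∧ Sinks S N p z ∧ (∀ j, Goes S p z (τ j) 1 (s j)) ∧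
          (volume (K T) = 0 → (∀ j, ‖s j - c j‖ < ε) ∧
            ∀ i, Function.minimalPeriod (map S) (z i) = p i)) ∧
    -- (2) the polynomials `Q (z ^ k)`
    (∀ (k s m : ℕ) (e : Fin m → ℕ), 2 ≤ k → k ∣ s + 1 → (∀ j, 1 ≤ e j) → s + ∑ j, k * e j = n →
      ∀ (T : ℂ[X]) (w : Fin m → ℂ),
        derivative T = C (a * ((n : ℂ) + 1)) * (X ^ s * ∏ j, (X ^ k - C (w j)) ^ (e j)) →
        ¬ Escapes T 0 → (∀ j u, u ^ k = w j → ¬ Escapes T u) → volume (K T) < ⊤ ∧
        ∀ ε : ℝ, A * Real.sqrt (volume (K T)).toReal < ε →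
        ∀ (κ : ℕ) (τ₀ : Option (Fin κ)) (τ : Fin m → Option (Fin κ)),
        (∀ i, τ₀ = some i ∨ ∃ j, τ j = some i) → ∀ N : ℕ,
        ∃ (S : ℂ[X]) (w' : Fin m → ℂ) (p : Fin κ → ℕ) (z : Fin κ → ℂ),
          derivative S = C (a * ((n : ℂ) + 1)) * (X ^ s * ∏ j, (X ^ k - C (w' j)) ^ (e j)) ∧
          Near n a T S ε ∧ Hyperbolic S ∧ Sinks S N p z ∧ Goes S p z τ₀ 1 0 ∧
          (∀ j u, u ^ k = w' j → Goes S p z (τ j) 1 u) ∧
          (volume (K T) = 0 → (∀ j, ‖w' j - w j‖ < ε) ∧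
            ∀ i, Function.minimalPeriod (map S) (z i) = p i)) ∧
    -- (3) the polynomials `z * Q (z ^ k)`
    (∀ (k m : ℕ) (e : Fin m → ℕ), 2 ≤ k → (∀ j, 1 ≤ e j) → ∑ j, k * e j = n →
      ∀ (T : ℂ[X]) (w : Fin m → ℂ), T.coeff 0 = 0 →
        derivative T = C (a * ((n : ℂ) + 1)) * ∏ j, (X ^ k - C (w j)) ^ (e j) →
        (∀ j u, u ^ k = w j → ¬ Escapes T u) → volume (K T) < ⊤ ∧
        ∀ ε : ℝ, A * Real.sqrt (volume (K T)).toReal < ε →
        ∀ (κ : ℕ) (τ : Fin m → Option (Fin κ)), (∀ i, ∃ j, τ j = some i) → ∀ N : ℕ,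
        ∃ (S : ℂ[X]) (u : Fin m → ℂ) (p : Fin κ → ℕ) (z : Fin κ → ℂ), S.coeff 0 = 0 ∧
          derivative S = C (a * ((n : ℂ) + 1)) * ∏ j, (X ^ k - C (u j ^ k)) ^ (e j) ∧
          Near n a T S ε ∧ Hyperbolic S ∧ Sinks S N p z ∧
          (∀ j ω, ω ^ k = 1 → Goes S p z (τ j) ω (ω * u j)) ∧
          (volume (K T) = 0 → (∀ j, ‖u j ^ k - w j‖ < ε) ∧
            ∀ i, Function.minimalPeriod (map S) (z i) = p i)) := by
  classical
  obtain ⟨A, hA, h⟩ := Pool.Agent.U598.FT.typeCF ha hn |b|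
  refine ⟨A, hA, ?_, ?_, ?_⟩
  · intro m e he hs T c hT hTb hcrit
    obtain ⟨s₀, vT, h1, h2, h3⟩ := Pool.Agent.U598.FT.exists_paramA hn e hs he hT
    have F := Pool.Agent.U598.FT.fmA a hn e hs he s₀
    obtain ⟨hvol, h⟩ := h m _ _ _ _ F vT (by rw [h1]; exact hTb.trans (le_abs_self b))
      (by rw [h1]; intro i; rw [h3]; exact hcrit _)
    rw [h1] at hvol h
    refine ⟨hvol, fun ε hε κ τ hτ N => ?_⟩
    obtain ⟨v, p, z, r, e1, e2, e3, e4⟩ := h ε hε κ τ hτ N
    refine ⟨Pool.Agent.H713R3.ZA.fam a n (Pool.Agent.U598.FT.PA e hs s₀ v),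
      fun j => Pool.Agent.U598.FT.PA e hs s₀ v (some (Pool.Agent.U598.FT.repA e hs he j)), p, z,
      ?_, ⟨Pool.Agent.H713R3.ZA.natDegree_fam ha n _, Pool.Agent.W820.BM.leadingCoeff_fam ha n _,
        e2, e1⟩, hyp_of ha F e3, sinks_of e3, fun j => ?_, fun h0 => ⟨fun j => ?_, (e4 h0).2⟩⟩
    · rw [Pool.Agent.H713R3.ZA.derivative_fam, Pool.Agent.U598.FT.dfam_PA a e hs he s₀ v]
    · have h5 := goes_of e3 (Pool.Agent.U598.FT.repA e hs he j)
      rw [Pool.Agent.U598.FT.clA_repA] at h5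
      exact h5
    · have h5 := norm_le_pi_norm (Pool.Agent.U598.FT.PA e hs s₀ v -
        Pool.Agent.U598.FT.PA e hs s₀ vT) (some (Pool.Agent.U598.FT.repA e hs he j))
      rw [Pi.sub_apply, h2 j] at h5
      exact h5.trans_lt (e4 h0).1
  · intro k s m e hk hks he hs T w hT hcrit0 hcrit
    have hk1 : 1 ≤ k := by omega
    have hs1 : 1 ≤ s := by
      have := Nat.le_of_dvd (by omega) hks
      omega
    obtain ⟨ω, hω⟩ : ∃ ω : ℂ, IsPrimitiveRoot ω k := ⟨_, Complex.isPrimitiveRoot_exp k (by omega)⟩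
    have hu : ∀ j, ∃ u, u ^ k = w j := fun j => IsAlgClosed.exists_pow_nat_eq (w j) (by omega)
    choose u hu using hu
    have F := Pool.Agent.U598.FT.fmB e hs a hs1 hk hks he hω
    obtain ⟨vT, hvT⟩ : ∃ vT : Fin (m + 1) → ℂ, vT = Fin.cons (T.coeff 0) u := ⟨_, rfl⟩
    have hvS : ∀ j : Fin m, vT j.succ = u j := fun j => by rw [hvT, Fin.cons_succ]
    have h1 : Pool.Agent.H713R3.ZA.fam a n (Pool.Agent.U598.FT.PB e hs ω vT) = T := by
      apply Pool.Agent.W806.BM.poly_eq (z := 0)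
      · rw [Pool.Agent.H713R3.ZA.derivative_fam, Pool.Agent.U598.FT.dfam_PB e hs a hk1 hω, hT]
        simp only [hvS, hu]
      · rw [← coeff_zero_eq_eval_zero, Pool.Agent.H713R3.ZA.coeff_fam_zero,
          ← coeff_zero_eq_eval_zero, Pool.Agent.U598.FT.PB_none, hvT, Fin.cons_zero]
    have hpos : ∀ i, Pool.Agent.U598.FT.PB e hs ω vT (some i) = 0 ∨
        ∃ j, (Pool.Agent.U598.FT.PB e hs ω vT (some i)) ^ k = w j := by
      intro i
      rw [Pool.Agent.U598.FT.PB_some]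
      rcases Pool.Agent.U598.FT.EB e hs i with i' | q
      · left; rfl
      · right
        refine ⟨q.1, ?_⟩
        show (ω ^ (q.2.1 : ℕ) * vT q.1.succ) ^ k = w q.1
        rw [mul_pow, ← pow_mul, mul_comm (q.2.1 : ℕ) k, pow_mul, hω.pow_eq_one, one_pow, one_mul,
          hvS, hu]
    have hTn : T.coeff n = 0 := by
      have hsum := Pool.Agent.W820.BM.coeff_n hn a (Pool.Agent.U598.FT.PB e hs ω vT)
      rw [h1] at hsum
      have h0 := F.sum vT 0
      have h00 : ∑ i : Fin n, Pool.Agent.U598.FT.PB e hs ω 0 (some i) = 0 := by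
        apply Finset.sum_eq_zero
        intro i _
        rw [Pool.Agent.U598.FT.PB_some]
        rcases Pool.Agent.U598.FT.EB e hs i with i' | q
        · rfl
        · show ω ^ (q.2.1 : ℕ) * (0 : Fin (m + 1) → ℂ) q.1.succ = 0
          rw [Pi.zero_apply, mul_zero]
      rw [hsum, h0, h00, mul_zero]
    obtain ⟨hvol, h⟩ := h (m + 1) _ _ _ _ F vT (by rw [h1, hTn, norm_zero]; exact abs_nonneg b)
      (by
        rw [h1]
        intro i
        rcases hpos i with h2 | ⟨j, h2⟩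
        · rw [h2]; exact hcrit0
        · exact hcrit j _ h2)
    rw [h1] at hvol h
    refine ⟨hvol, fun ε hε κ τ₀ τ hτ N => ?_⟩
    obtain ⟨ε', hε'1, hε'2, hε'3⟩ := exists_eps u k hε
    obtain ⟨v, p, z, r, e1, e2, e3, e4⟩ := h ε' hε'2 κ (Fin.cons τ₀ τ) (by
      intro i
      rcases hτ i with h2 | ⟨j, h2⟩
      · exact ⟨0, by rw [Fin.cons_zero]; exact h2⟩
      · exact ⟨j.succ, by rw [Fin.cons_succ]; exact h2⟩) N
    refine ⟨Pool.Agent.H713R3.ZA.fam a n (Pool.Agent.U598.FT.PB e hs ω v),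
      fun j => v j.succ ^ k, p, z,
      ?_, ⟨Pool.Agent.H713R3.ZA.natDegree_fam ha n _, Pool.Agent.W820.BM.leadingCoeff_fam ha n _,
        e2, fun j => (e1 j).trans_le hε'1⟩, hyp_of ha F e3, sinks_of e3, ?_, ?_,
        fun h0 => ⟨fun j => ?_, (e4 h0).2⟩⟩
    · rw [Pool.Agent.H713R3.ZA.derivative_fam, Pool.Agent.U598.FT.dfam_PB e hs a hk1 hω]
    · have h5 := goes_of e3 (Pool.Agent.U598.FT.repB e hs hs1 hk1 he 0)
      rw [Pool.Agent.U598.FT.clB_repB, Pool.Agent.U598.FT.PB_rep_zero, Fin.cons_zero] at h5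
      exact h5
    · intro j u' hu'
      obtain ⟨t, ht⟩ := rot_of_pow hk1 hω hu'
      obtain ⟨i, hi⟩ : ∃ i, i = (Pool.Agent.U598.FT.EB e hs).symm
        (Sum.inr ⟨j, (t, ⟨0, he j⟩)⟩) := ⟨_, rfl⟩
      have hE : Pool.Agent.U598.FT.EB e hs i = Sum.inr ⟨j, (t, ⟨0, he j⟩)⟩ := by
        rw [hi, Equiv.apply_symm_apply]
      have hcl : Pool.Agent.U598.FT.clB e hs i = j.succ := by
        unfold Pool.Agent.U598.FT.clB; rw [hE]; rfl
      have hP : Pool.Agent.U598.FT.PB e hs ω v (some i) = u' := by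
        rw [Pool.Agent.U598.FT.PB_some, hE, ht]; rfl
      have h5 := goes_of e3 i
      rw [hcl, hP, Fin.cons_succ] at h5
      exact h5
    · have h5 := norm_le_pi_norm (Pool.Agent.U598.FT.PB e hs ω v -
        Pool.Agent.U598.FT.PB e hs ω vT) (some (Pool.Agent.U598.FT.repB e hs hs1 hk1 he j.succ))
      rw [Pi.sub_apply, Pool.Agent.U598.FT.PB_rep_succ, Pool.Agent.U598.FT.PB_rep_succ, hvS] at h5
      have h6 := hε'3 (by rw [h0]; rfl) j _ (h5.trans_lt (e4 h0).1)
      rw [hu] at h6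
      exact h6
  · intro k m e hk he hs T w hT0 hT hcrit
    have hk1 : 1 ≤ k := by omega
    obtain ⟨ω, hω⟩ : ∃ ω : ℂ, IsPrimitiveRoot ω k := ⟨_, Complex.isPrimitiveRoot_exp k (by omega)⟩
    have hu : ∀ j, ∃ u, u ^ k = w j := fun j => IsAlgClosed.exists_pow_nat_eq (w j) (by omega)
    choose u hu using hu
    have F := Pool.Agent.U598.FT.fmC e hs a hk he hω
    have h1 : Pool.Agent.H713R3.ZA.fam a n (Pool.Agent.U598.FT.PC e hs ω u) = T := by
      apply Pool.Agent.W806.BM.poly_eq (z := 0)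
      · rw [Pool.Agent.H713R3.ZA.derivative_fam, Pool.Agent.U598.FT.dfam_PC e hs a hk1 hω, hT]
        simp only [hu]
      · rw [← coeff_zero_eq_eval_zero, Pool.Agent.H713R3.ZA.coeff_fam_zero,
          ← coeff_zero_eq_eval_zero, Pool.Agent.U598.FT.PC_none, hT0]
    have hpos : ∀ i, ∃ j, (Pool.Agent.U598.FT.PC e hs ω u (some i)) ^ k = w j := by
      intro i
      rw [Pool.Agent.U598.FT.PC_some]
      refine ⟨(Pool.Agent.U598.FT.EC e hs i).1, ?_⟩
      rw [mul_pow, ← pow_mul, mul_comm _ k, pow_mul, hω.pow_eq_one, one_pow, one_mul, hu]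
    have hTn : T.coeff n = 0 := by
      have hsum := Pool.Agent.W820.BM.coeff_n hn a (Pool.Agent.U598.FT.PC e hs ω u)
      rw [h1] at hsum
      have h0 := F.sum u 0
      have h00 : ∑ i : Fin n, Pool.Agent.U598.FT.PC e hs ω 0 (some i) = 0 := by
        apply Finset.sum_eq_zero
        intro i _
        rw [Pool.Agent.U598.FT.PC_some, Pi.zero_apply, mul_zero]
      rw [hsum, h0, h00, mul_zero]
    obtain ⟨hvol, h⟩ := h m _ _ _ _ F u (by rw [h1, hTn, norm_zero]; exact abs_nonneg b)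
      (by
        rw [h1]
        intro i
        obtain ⟨j, h2⟩ := hpos i
        exact hcrit j _ h2)
    rw [h1] at hvol h
    refine ⟨hvol, fun ε hε κ τ hτ N => ?_⟩
    obtain ⟨ε', hε'1, hε'2, hε'3⟩ := exists_eps u k hε
    obtain ⟨v, p, z, r, e1, e2, e3, e4⟩ := h ε' hε'2 κ τ hτ N
    refine ⟨Pool.Agent.H713R3.ZA.fam a n (Pool.Agent.U598.FT.PC e hs ω v),
      v, p, z, ?_,
      ?_, ⟨Pool.Agent.H713R3.ZA.natDegree_fam ha n _, Pool.Agent.W820.BM.leadingCoeff_fam ha n _,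
        e2, fun j => (e1 j).trans_le hε'1⟩, hyp_of ha F e3, sinks_of e3, ?_,
        fun h0 => ⟨fun j => ?_, (e4 h0).2⟩⟩
    · rw [Pool.Agent.H713R3.ZA.coeff_fam_zero, Pool.Agent.U598.FT.PC_none]
    · rw [Pool.Agent.H713R3.ZA.derivative_fam, Pool.Agent.U598.FT.dfam_PC e hs a hk1 hω]
    · intro j μ hμ
      obtain ⟨t, ht⟩ := rot_of_pow hk1 hω (u := μ) (v := 1) (by rw [hμ, one_pow])
      rw [mul_one] at ht
      obtain ⟨i, hi⟩ : ∃ i, i = (Pool.Agent.U598.FT.EC e hs).symm ⟨j, (t, ⟨0, he j⟩)⟩ := ⟨_, rfl⟩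
      have hE : Pool.Agent.U598.FT.EC e hs i = ⟨j, (t, ⟨0, he j⟩)⟩ := by
        rw [hi, Equiv.apply_symm_apply]
      have hcl : Pool.Agent.U598.FT.clC e hs i = j := by
        unfold Pool.Agent.U598.FT.clC; rw [hE]
      have hP : Pool.Agent.U598.FT.PC e hs ω v (some i) = μ * v j := by
        rw [Pool.Agent.U598.FT.PC_some, hE, ht]
      have h5 := goes_of e3 i
      rw [hcl, hP, hE, ← ht] at h5
      exact h5
    · have h5 := norm_le_pi_norm (Pool.Agent.U598.FT.PC e hs ω v -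
        Pool.Agent.U598.FT.PC e hs ω u) (some (Pool.Agent.U598.FT.repC e hs hk1 he j))
      rw [Pi.sub_apply, Pool.Agent.U598.FT.PC_rep, Pool.Agent.U598.FT.PC_rep] at h5
      have h6 := hε'3 (by rw [h0]; rfl) j _ (h5.trans_lt (e4 h0).1)
      rw [hu] at h6
      exact h6

end Pool.Agent.Results.MP_8f2e1c_an.TypesInStrata
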